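import Pool.Agent.Lib.MP_92a7e5_nt.NG.Neighbour

set_option autoImplicit false

/-!
# The alternating series over reciprocal prime gaps: only isolated small gaps matter
-/

namespace Pool.Agent.Results.MP_92a7e5_nt.IsolatedSmallGaps

open Filter Topology Real

/-- the prime gap `g_(k+1) = p_(k+2) - p_(k+1)`, where `p_n` is the `n`-th prime -/
noncomputable def gap (k : ℕ) : ℝ :=
  (Nat.nth Nat.Prime (k + 1) : ℝ) - (Nat.nth Nat.Prime k : ℝ)

/-- the explicit function `(1 + log (1 + log (n + 1)))^c` -/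
noncomputable def H (c : ℝ) (n : ℕ) : ℝ := (1 + log (1 + log ((n : ℝ) + 1))) ^ c

/-- The exceptional indices `n = k + 1`: the gap `g_n` is at least `h(n) log n`, or one of the
neighbouring gaps `g_(n+1)`, `g_(n-1)` is at most `log n / (1 + log (1 + log (n + 1)))^c` (the last
condition never holds for `n = 1`, that is `k = 0`). -/
def Exceptional (h : ℕ → ℝ) (c : ℝ) (k : ℕ) : Prop :=
  h (k + 1) * log ((k : ℝ) + 1) ≤ gap k ∨
  gap (k + 1) * H c (k + 1) ≤ log ((k : ℝ) + 1) ∨
  gap (k - 1) * H c (k + 1) ≤ log ((k : ℝ) + 1)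

open Classical in
/-- The exceptional terms are negligible: the sum of `1 / (n g_n)` over the exceptional `n` is
finite, and `∑ (-1)^n / (n g_n)` converges if and only if the same series restricted to the
non-exceptional `n` converges (here `n = k + 1`). -/
def Negligible (h : ℕ → ℝ) (c : ℝ) : Prop :=
  Summable (fun k : ℕ => if Exceptional h c k then 1 / (((k : ℝ) + 1) * gap k) else 0) ∧
    ((∃ L : ℝ, Tendsto (fun N : ℕ => ∑ k ∈ Finset.range N,
        (-1 : ℝ) ^ (k + 1) / (((k : ℝ) + 1) * gap k)) atTop (𝓝 L)) ↔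
      (∃ L : ℝ, Tendsto (fun N : ℕ => ∑ k ∈ Finset.range N,
        if Exceptional h c k then 0 else (-1 : ℝ) ^ (k + 1) / (((k : ℝ) + 1) * gap k))
          atTop (𝓝 L)))

open Classical in
theorem negligible {h : ℕ → ℝ} (hpos : ∀ n, 0 < h n) (hmono : Monotone h)
    (hsum : Summable (fun n : ℕ => 1 / ((n : ℝ) * log n * h n ^ 2))) {c : ℝ} (hc : 2 < c) :
    Negligible h c := by
  have hs : Summable (fun k : ℕ => if Exceptional h c k then 1 / (((k : ℝ) + 1) * gap k) else 0) :=
    Pool.Agent.Lib.MP_92a7e5_nt.NG.summable_exc hpos hmono hsum hc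
  have hgap : ∀ k, 0 < gap k := Pool.Agent.Lib.MP_92a7e5_nt.NG.Large.gap_pos
  refine ⟨hs, ?_⟩
  have hs' : Summable (fun k : ℕ => (-1 : ℝ) ^ (k + 1) *
      (if Exceptional h c k then 1 / (((k : ℝ) + 1) * gap k) else 0)) := by
    refine Summable.of_norm ?_
    refine hs.congr fun k => ?_
    have : 0 ≤ (if Exceptional h c k then 1 / (((k : ℝ) + 1) * gap k) else 0) := by
      have := hgap k
      split_ifs
      · positivity
      · exact le_rfl
    rw [norm_mul, norm_pow, norm_neg, norm_one, one_pow, one_mul, Real.norm_of_nonneg this]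
  have ht := hs'.hasSum.tendsto_sum_nat
  have hsplit : ∀ k : ℕ, (-1 : ℝ) ^ (k + 1) / (((k : ℝ) + 1) * gap k) =
      (if Exceptional h c k then 0 else (-1 : ℝ) ^ (k + 1) / (((k : ℝ) + 1) * gap k)) +
        (-1 : ℝ) ^ (k + 1) *
          (if Exceptional h c k then 1 / (((k : ℝ) + 1) * gap k) else 0) := by
    intro k
    by_cases hk : Exceptional h c k
    · rw [if_pos hk, if_pos hk]; ring
    · rw [if_neg hk, if_neg hk]; ring
  constructor
  · rintro ⟨L, hL⟩
    refine ⟨L - ∑' k : ℕ, (-1 : ℝ) ^ (k + 1) *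
      (if Exceptional h c k then 1 / (((k : ℝ) + 1) * gap k) else 0), ?_⟩
    refine (hL.sub ht).congr fun N => ?_
    rw [← Finset.sum_sub_distrib]
    exact Finset.sum_congr rfl fun k _ => by have := hsplit k; linarith
  · rintro ⟨L, hL⟩
    refine ⟨L + ∑' k : ℕ, (-1 : ℝ) ^ (k + 1) *
      (if Exceptional h c k then 1 / (((k : ℝ) + 1) * gap k) else 0), ?_⟩
    refine (hL.add ht).congr fun N => ?_
    rw [← Finset.sum_add_distrib]
    exact Finset.sum_congr rfl fun k _ => (hsplit k).symm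

/-- **Only isolated small gaps matter.**  Let `h > 0` be nondecreasing with
`∑ 1 / (n log n h(n)²) < ∞`, for example `h(n) = (1 + log (1 + log (n + 1)))^c'` with `c' > 1/2`,
and let `c > 2`.  Then the sum of `1 / (n g_n)` over all `n` such that `g_n ≥ h(n) log n` or one of
the neighbouring gaps `g_(n+1)`, `g_(n-1)` is at most `log n / (1 + log (1 + log (n + 1)))^c` is
finite, and `∑ (-1)^n / (n g_n)` converges if and only if it does after leaving out these `n`. -/
theorem result :
    (∀ h : ℕ → ℝ, (∀ n, 0 < h n) → Monotone h →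
      Summable (fun n : ℕ => 1 / ((n : ℝ) * log n * h n ^ 2)) →
        ∀ c : ℝ, 2 < c → Negligible h c) ∧
    ∀ c' c : ℝ, 1 / 2 < c' → 2 < c → Negligible (H c') c :=
  ⟨fun _ h1 h2 h3 _ hc => negligible h1 h2 h3 hc, fun c' _ hc' hc =>
    negligible (Pool.Agent.Lib.MP_92a7e5_nt.NG.Large.H_pos c')
      (Pool.Agent.Lib.MP_92a7e5_nt.NG.Large.H_mono (by linarith))
      (Pool.Agent.Lib.MP_92a7e5_nt.NG.Large.H_sum hc') hc⟩

end Pool.Agent.Results.MP_92a7e5_nt.IsolatedSmallGaps
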