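import Mathlib
import Pool.Agent.Lib.MP_92a7e5_nt.Final

namespace Pool.Agent.Results.MP_92a7e5_nt.SparseCriterion

/-- The prime gap `g_n = p_{n+1} - p_n`, where `p_1 = 2`, `p_2 = 3`, ... (`n ≥ 1`; Mathlib's
`Nat.nth Nat.Prime` counts from `0`). -/
noncomputable def g (n : ℕ) : ℝ :=
  (Nat.nth Nat.Prime n : ℝ) - (Nat.nth Nat.Prime (n - 1) : ℝ)

/-- The partial sum `∑_{1 ≤ k ≤ n} (-1)^k / (k g_k)`. -/
noncomputable def S (n : ℕ) : ℝ := ∑ k ∈ Finset.Icc 1 n, (-1 : ℝ) ^ k / (k * g k)

/-- Let `N_0 < N_1 < ...` be natural numbers with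
`log log N_{j+1} (log log N_{j+1} - log log N_j) → 0`.  Then for every real `s` the partial sums of
the series `∑_{n ≥ 1} (-1)^n / (n g_n)` converge to `s` if and only if the partial sums up to `N_j`
converge to `s` as `j → ∞`. -/
theorem result (N : ℕ → ℕ) (hN : StrictMono N)
    (hgap : Filter.Tendsto (fun j : ℕ => Real.log (Real.log (N (j + 1))) *
      (Real.log (Real.log (N (j + 1))) - Real.log (Real.log (N j)))) Filter.atTop (nhds 0))
    (s : ℝ) :
    Filter.Tendsto S Filter.atTop (nhds s) ↔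
      Filter.Tendsto (fun j : ℕ => S (N j)) Filter.atTop (nhds s) := by
  have e : ∀ n : ℕ, S n = ∑ k ∈ Finset.range n, Pool.Agent.Lib.MP_92a7e5_nt.term k := by
    intro n
    unfold S
    induction n with
    | zero => simp
    | succ n ih =>
      rw [Finset.sum_Icc_succ_top (by omega), ih, Finset.sum_range_succ]
      congr 1
      unfold Pool.Agent.Lib.MP_92a7e5_nt.term g
      rw [Nat.add_sub_cancel]
      push_cast
      rfl
  have e1 : S = fun n : ℕ => ∑ k ∈ Finset.range n, Pool.Agent.Lib.MP_92a7e5_nt.term k := funext e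
  rw [e1]
  exact Pool.Agent.Lib.MP_92a7e5_nt.main N hN hgap s

end Pool.Agent.Results.MP_92a7e5_nt.SparseCriterion
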